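import Pool.Agent.Work.MP_292d0f_va.Final

/-!
# Antisymmetrisers and braided functors
-/

open CategoryTheory MonoidalCategory Functor
open Pool.Agent.Work.MP_c42eb9_num.Defs Pool.Agent.Work.MP_c42eb9_num

namespace Pool.VAS

universe v u v₁ u₁

variable {B : Type u₁} [Category.{v₁} B] [MonoidalCategory B] [SymmetricCategory B]
  {A : Type u} [Category.{v} A] [MonoidalCategory A] [SymmetricCategory A]
  (F : B ⥤ A) [F.Braided]

/-- The comparison of the tensor powers. -/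
noncomputable def cmp (X : B) : ∀ n : ℕ, tpow (F.obj X) n ≅ F.obj (tpow X n)
  | 0 => Functor.Monoidal.εIso F
  | n + 1 => whiskerLeftIso (F.obj X) (cmp X n) ≪≫ Functor.Monoidal.μIso F X (tpow X n)

theorem map_exch_aux (X Z : B) :
    (F.obj X ◁ (LaxMonoidal.μ F X Z) ≫ LaxMonoidal.μ F X (X ⊗ Z)) ≫
      F.map ((α_ X X Z).inv ≫ (β_ X X).hom ▷ Z ≫ (α_ X X Z).hom) =
    ((α_ (F.obj X) (F.obj X) (F.obj Z)).inv ≫ (β_ (F.obj X) (F.obj X)).hom ▷ F.obj Z ≫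
      (α_ (F.obj X) (F.obj X) (F.obj Z)).hom) ≫
      (F.obj X ◁ (LaxMonoidal.μ F X Z) ≫ LaxMonoidal.μ F X (X ⊗ Z)) := by
  have h1 : LaxMonoidal.μ F X X ▷ F.obj Z ≫ LaxMonoidal.μ F (X ⊗ X) Z ≫ F.map ((β_ X X).hom ▷ Z) =
      (β_ (F.obj X) (F.obj X)).hom ▷ F.obj Z ≫ LaxMonoidal.μ F X X ▷ F.obj Z ≫
        LaxMonoidal.μ F (X ⊗ X) Z := by
    rw [← LaxMonoidal.μ_natural_left, ← comp_whiskerRight_assoc, LaxBraided.braided,
      comp_whiskerRight_assoc]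
  rw [F.map_comp, F.map_comp]
  calc (F.obj X ◁ (LaxMonoidal.μ F X Z) ≫ LaxMonoidal.μ F X (X ⊗ Z)) ≫
      F.map (α_ X X Z).inv ≫ F.map ((β_ X X).hom ▷ Z) ≫ F.map (α_ X X Z).hom
      = (F.obj X ◁ (LaxMonoidal.μ F X Z) ≫ LaxMonoidal.μ F X (X ⊗ Z) ≫
          F.map (α_ X X Z).inv) ≫ F.map ((β_ X X).hom ▷ Z) ≫ F.map (α_ X X Z).hom := by
        simp only [Category.assoc]
    _ = ((α_ (F.obj X) (F.obj X) (F.obj Z)).inv ≫ LaxMonoidal.μ F X X ▷ F.obj Z ≫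
          LaxMonoidal.μ F (X ⊗ X) Z) ≫ F.map ((β_ X X).hom ▷ Z) ≫ F.map (α_ X X Z).hom := by
        rw [LaxMonoidal.associativity_inv]
    _ = (α_ (F.obj X) (F.obj X) (F.obj Z)).inv ≫ (LaxMonoidal.μ F X X ▷ F.obj Z ≫
          LaxMonoidal.μ F (X ⊗ X) Z ≫ F.map ((β_ X X).hom ▷ Z)) ≫ F.map (α_ X X Z).hom := by
        simp only [Category.assoc]
    _ = (α_ (F.obj X) (F.obj X) (F.obj Z)).inv ≫ ((β_ (F.obj X) (F.obj X)).hom ▷ F.obj Z ≫
          LaxMonoidal.μ F X X ▷ F.obj Z ≫ LaxMonoidal.μ F (X ⊗ X) Z) ≫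
          F.map (α_ X X Z).hom := by rw [h1]
    _ = (α_ (F.obj X) (F.obj X) (F.obj Z)).inv ≫ (β_ (F.obj X) (F.obj X)).hom ▷ F.obj Z ≫
          (LaxMonoidal.μ F X X ▷ F.obj Z ≫ LaxMonoidal.μ F (X ⊗ X) Z ≫
          F.map (α_ X X Z).hom) := by simp only [Category.assoc]
    _ = _ := by rw [LaxMonoidal.associativity]; simp only [Category.assoc]

theorem map_exch (X : B) (n : ℕ) :
    (cmp F X (n + 2)).hom ≫ F.map (exch X n) = exch (F.obj X) n ≫ (cmp F X (n + 2)).hom := by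
  have h1 := map_exch_aux F X (tpow X n)
  have h2 : (cmp F X (n + 2)).hom = (F.obj X ◁ (F.obj X ◁ (cmp F X n).hom)) ≫
      (F.obj X ◁ (LaxMonoidal.μ F X (tpow X n)) ≫ LaxMonoidal.μ F X (X ⊗ tpow X n)) := by
    show F.obj X ◁ (F.obj X ◁ (cmp F X n).hom ≫ LaxMonoidal.μ F X (tpow X n)) ≫
      LaxMonoidal.μ F X (X ⊗ tpow X n) = _
    rw [MonoidalCategory.whiskerLeft_comp, Category.assoc]
  have h3 : (F.obj X ◁ (F.obj X ◁ (cmp F X n).hom)) ≫
      ((α_ (F.obj X) (F.obj X) (F.obj (tpow X n))).inv ≫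
        (β_ (F.obj X) (F.obj X)).hom ▷ F.obj (tpow X n) ≫
        (α_ (F.obj X) (F.obj X) (F.obj (tpow X n))).hom) =
      ((α_ (F.obj X) (F.obj X) (tpow (F.obj X) n)).inv ≫
        (β_ (F.obj X) (F.obj X)).hom ▷ tpow (F.obj X) n ≫
        (α_ (F.obj X) (F.obj X) (tpow (F.obj X) n)).hom) ≫
      (F.obj X ◁ (F.obj X ◁ (cmp F X n).hom)) := by
    rw [associator_inv_naturality_right_assoc, whisker_exchange_assoc,
      associator_naturality_right]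
    simp only [Category.assoc]
  rw [h2]
  show (F.obj X ◁ (F.obj X ◁ (cmp F X n).hom) ≫
      (F.obj X ◁ (LaxMonoidal.μ F X (tpow X n)) ≫ LaxMonoidal.μ F X (X ⊗ tpow X n))) ≫
      F.map ((α_ X X (tpow X n)).inv ≫ (β_ X X).hom ▷ tpow X n ≫ (α_ X X (tpow X n)).hom) =
    ((α_ (F.obj X) (F.obj X) (tpow (F.obj X) n)).inv ≫
        (β_ (F.obj X) (F.obj X)).hom ▷ tpow (F.obj X) n ≫
        (α_ (F.obj X) (F.obj X) (tpow (F.obj X) n)).hom) ≫
      (F.obj X ◁ (F.obj X ◁ (cmp F X n).hom) ≫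
      (F.obj X ◁ (LaxMonoidal.μ F X (tpow X n)) ≫ LaxMonoidal.μ F X (X ⊗ tpow X n)))
  rw [Category.assoc, h1, ← Category.assoc, h3, Category.assoc]

variable [Preadditive B] [MonoidalPreadditive B] [Linear ℚ B]
  [Preadditive A] [MonoidalPreadditive A] [Linear ℚ A] [F.Additive]

omit [MonoidalCategory A] [MonoidalPreadditive A] [SymmetricCategory A] [MonoidalCategory B]
  [SymmetricCategory B] [MonoidalPreadditive B] [F.Braided] in
theorem map_alt_aux {W : B} {W' : A} (b s : W ⟶ W) (b' s' : W' ⟶ W') (G : B ⥤ A) [G.Additive]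
    (ψ : W' ⟶ G.obj W) (c c' : ℚ) (hb : b' ≫ ψ = ψ ≫ G.map b) (hs : s' ≫ ψ = ψ ≫ G.map s) :
    (c • (b' - c' • (b' ≫ s' ≫ b'))) ≫ ψ = ψ ≫ G.map (c • (b - c' • (b ≫ s ≫ b))) := by
  have e : G.map (c • (b - c' • (b ≫ s ≫ b))) =
      c • (G.map b - c' • (G.map b ≫ G.map s ≫ G.map b)) := by
    rw [Functor.map_smul, Functor.map_sub, Functor.map_smul, G.map_comp, G.map_comp]
  rw [e]
  have e3 : (b' ≫ s' ≫ b') ≫ ψ = ψ ≫ (G.map b ≫ G.map s ≫ G.map b) := by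
    calc (b' ≫ s' ≫ b') ≫ ψ = b' ≫ s' ≫ (b' ≫ ψ) := by simp only [Category.assoc]
      _ = b' ≫ (s' ≫ ψ) ≫ G.map b := by rw [hb]; simp only [Category.assoc]
      _ = (b' ≫ ψ) ≫ G.map s ≫ G.map b := by rw [hs]; simp only [Category.assoc]
      _ = _ := by rw [hb]; simp only [Category.assoc]
  rw [Linear.smul_comp, Linear.comp_smul, Preadditive.sub_comp, Preadditive.comp_sub, hb,
    Linear.smul_comp, Linear.comp_smul, e3]

theorem map_alt (X : B) : ∀ n : ℕ,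
    alt (F.obj X) n ≫ (cmp F X n).hom = (cmp F X n).hom ≫ F.map (alt X n)
  | 0 => by
    show 𝟙 _ ≫ (cmp F X 0).hom = (cmp F X 0).hom ≫ F.map (𝟙 _)
    rw [F.map_id, Category.id_comp, Category.comp_id]
  | 1 => by
    show 𝟙 _ ≫ (cmp F X 1).hom = (cmp F X 1).hom ≫ F.map (𝟙 _)
    rw [F.map_id, Category.id_comp, Category.comp_id]
  | n + 2 => by
    have ih := map_alt X (n + 1)
    have hb : F.obj X ◁ (alt (F.obj X) (n + 1)) ≫
        (F.obj X ◁ (cmp F X (n + 1)).hom ≫ LaxMonoidal.μ F X (tpow X (n + 1))) =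
        (F.obj X ◁ (cmp F X (n + 1)).hom ≫ LaxMonoidal.μ F X (tpow X (n + 1))) ≫
        F.map (X ◁ (alt X (n + 1))) := by
      rw [← Category.assoc, ← MonoidalCategory.whiskerLeft_comp, ih,
        MonoidalCategory.whiskerLeft_comp, Category.assoc, Category.assoc,
        LaxMonoidal.μ_natural_right]
    exact map_alt_aux (W := tpow X (n + 2)) (W' := tpow (F.obj X) (n + 2))
      (X ◁ (alt X (n + 1))) (exch X n) (F.obj X ◁ (alt (F.obj X) (n + 1))) (exch (F.obj X) n) F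
      (cmp F X (n + 2)).hom (((n : ℚ) + 2)⁻¹) ((n : ℚ) + 1) hb (map_exch F X n).symm

end Pool.VAS
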