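import Pool.Agent.Work.MP_292d0f_va.Defs

/-!
# Voisin's anti-symmetrization conjecture: specialization, definitions

`f : 𝒮 ⟶ C` is a smooth projective family of K3 surfaces over a complex curve with a base point
`0`. `M : ChowMotives V A` are the covariant Chow motives over an algebraic closure `Ω` of the
function field of `C` (abstractly `Ω` is isomorphic to `ℂ`), `M₀ : ChowMotives V₀ A₀` those over
`ℂ`, and `B` is the category of effective motives over `Ω` which are direct summands of motives of
smooth projective varieties with good reduction at a place of `Ω` over `0`.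
-/

open CategoryTheory MonoidalCategory
open Pool.Agent.Work.MP_c42eb9_num.Defs

namespace Pool.VAS

universe v u w v₀ u₀ w₀ v₁ u₁

/-- The specialization of Chow motives at `0`: `gen` is the inclusion of `B` in the category of
all motives over `Ω`, and `sp` the specialization of algebraic cycles. The field `coniveau` is the
known fact that correspondences which are supported in codimension `k` over the source (these are
the ones which factor through the `k`-th twist of a variety) specialize to such
correspondences. -/
structure Specialization {V : Type w} {A : Type u} [Category.{v} A] [MonoidalCategory A]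
    [SymmetricCategory A] [Preadditive A] [Linear ℚ A] (M : ChowMotives V A)
    {V₀ : Type w₀} {A₀ : Type u₀} [Category.{v₀} A₀] [MonoidalCategory A₀]
    [SymmetricCategory A₀] [Preadditive A₀] [Linear ℚ A₀] (M₀ : ChowMotives V₀ A₀)
    (B : Type u₁) [Category.{v₁} B] [MonoidalCategory B] [SymmetricCategory B]
    [Preadditive B] where
  /-- The inclusion. -/
  gen : B ⥤ A
  /-- The specialization. -/
  sp : B ⥤ A₀
  genBraided : gen.Braided
  spBraided : sp.Braided
  genAdditive : gen.Additive
  spAdditive : sp.Additive
  coniveau : ∀ (X Y : B) (φ : X ⟶ Y) (k : ℕ),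
    (∃ (Z : V) (f : gen.obj X ⟶ tpow M.L k ⊗ M.h Z) (g : tpow M.L k ⊗ M.h Z ⟶ gen.obj Y),
      f ≫ g = gen.map φ) →
    ∃ (Z : V₀) (f : sp.obj X ⟶ tpow M₀.L k ⊗ M₀.h Z) (g : tpow M₀.L k ⊗ M₀.h Z ⟶ sp.obj Y),
      f ≫ g = sp.map φ

/-- `K₀` is a fibre and `K` the geometric generic fibre of a family of K3 surfaces: the
transcendental motive `K.t` has good reduction, and the transcendental motive of the special fibre
(which may have a larger Picard number) is a direct summand of its specialization. -/
structure K3Family {V : Type w} {A : Type u} [Category.{v} A] [MonoidalCategory A]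
    [SymmetricCategory A] [Preadditive A] [Linear ℚ A] {M : ChowMotives V A}
    {V₀ : Type w₀} {A₀ : Type u₀} [Category.{v₀} A₀] [MonoidalCategory A₀]
    [SymmetricCategory A₀] [Preadditive A₀] [Linear ℚ A₀] {M₀ : ChowMotives V₀ A₀}
    {B : Type u₁} [Category.{v₁} B] [MonoidalCategory B] [SymmetricCategory B]
    [Preadditive B] (D : Specialization M M₀ B) (K : K3Motive M) (K₀ : K3Motive M₀) where
  /-- The transcendental motive of the generic fibre in `B`. -/
  t : B
  iso : D.gen.obj t ≅ K.t
  inc : K₀.t ⟶ D.sp.obj t
  pr : D.sp.obj t ⟶ K₀.t
  inc_pr : inc ≫ pr = 𝟙 K₀.t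

end Pool.VAS
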