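import Pool.Agent.Work.MP_292d0f_sp.Map
import Pool.Agent.Work.MP_292d0f_sp.Defs

/-!
# Voisin's anti-symmetrization conjecture specializes: the proof
-/

open CategoryTheory MonoidalCategory
open Pool.Agent.Work.MP_c42eb9_num.Defs Pool.Agent.Work.MP_c42eb9_num

namespace Pool.VAS

universe v u w v₀ u₀ w₀ v₁ u₁

/-- Factorizations of antisymmetrisers pass to direct summands. -/
theorem alt_factor_retract {A : Type u} [Category.{v} A] [MonoidalCategory A]
    [SymmetricCategory A] [Preadditive A] [MonoidalPreadditive A] [Linear ℚ A]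
    {T T' W : A} (n : ℕ) (i : T' ⟶ T) (r : T ⟶ T') (h : i ≫ r = 𝟙 T')
    (f : tpow T n ⟶ W) (g : W ⟶ tpow T n) (e : f ≫ g = alt T n) :
    (tpowMap i n ≫ f) ≫ (g ≫ tpowMap r n) = alt T' n := by
  have h2 : tpowMap i n ≫ tpowMap r n = 𝟙 _ := by
    rw [← tpowMap_comp, h, tpowMap_id]
  calc (tpowMap i n ≫ f) ≫ (g ≫ tpowMap r n) = tpowMap i n ≫ (f ≫ g) ≫ tpowMap r n := by
        simp only [Category.assoc]
    _ = tpowMap i n ≫ tpowMap r n ≫ alt T' n := by rw [e, alt_nat r n]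
    _ = alt T' n := by rw [← Category.assoc, h2, Category.id_comp]

variable {V : Type w} {A : Type u} [Category.{v} A] [MonoidalCategory A]
    [SymmetricCategory A] [Preadditive A] [MonoidalPreadditive A] [Linear ℚ A] [MonoidalLinear ℚ A]
    {M : ChowMotives V A}
    {V₀ : Type w₀} {A₀ : Type u₀} [Category.{v₀} A₀] [MonoidalCategory A₀]
    [SymmetricCategory A₀] [Preadditive A₀] [MonoidalPreadditive A₀] [Linear ℚ A₀]
    [MonoidalLinear ℚ A₀] {M₀ : ChowMotives V₀ A₀}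
    {B : Type u₁} [Category.{v₁} B] [MonoidalCategory B] [SymmetricCategory B]
    [Preadditive B] [MonoidalPreadditive B] [Linear ℚ B]
    {D : Specialization M M₀ B} {K : K3Motive M} {K₀ : K3Motive M₀}

theorem specialize (F : K3Family D K K₀) (h : K.Coniveau) : K₀.Coniveau := by
  intro n
  have := D.genBraided
  have := D.spBraided
  have := D.genAdditive
  have := D.spAdditive
  obtain ⟨Y, f, g, e⟩ := h n
  -- the generic fibre
  have e1 := alt_factor_retract (n + 1) F.iso.hom F.iso.inv F.iso.hom_inv_id f g e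
  have m1 := map_alt D.gen F.t (n + 1)
  have e2 : ((cmp D.gen F.t (n + 1)).inv ≫ (tpowMap F.iso.hom (n + 1) ≫ f)) ≫
      ((g ≫ tpowMap F.iso.inv (n + 1)) ≫ (cmp D.gen F.t (n + 1)).hom) =
      D.gen.map (alt F.t (n + 1)) := by
    calc ((cmp D.gen F.t (n + 1)).inv ≫ (tpowMap F.iso.hom (n + 1) ≫ f)) ≫
      ((g ≫ tpowMap F.iso.inv (n + 1)) ≫ (cmp D.gen F.t (n + 1)).hom)
        = (cmp D.gen F.t (n + 1)).inv ≫ ((tpowMap F.iso.hom (n + 1) ≫ f) ≫
          (g ≫ tpowMap F.iso.inv (n + 1))) ≫ (cmp D.gen F.t (n + 1)).hom := by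
          simp only [Category.assoc]
      _ = (cmp D.gen F.t (n + 1)).inv ≫ alt (D.gen.obj F.t) (n + 1) ≫
          (cmp D.gen F.t (n + 1)).hom := by rw [e1]
      _ = _ := by rw [m1, Iso.inv_hom_id_assoc]
  obtain ⟨Z, f', g', e'⟩ := D.coniveau (tpow F.t (n + 1)) (tpow F.t (n + 1)) (alt F.t (n + 1)) n
    ⟨Y, _, _, e2⟩
  -- the special fibre
  have m2 := map_alt D.sp F.t (n + 1)
  have e3 : ((cmp D.sp F.t (n + 1)).hom ≫ f') ≫ (g' ≫ (cmp D.sp F.t (n + 1)).inv) =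
      alt (D.sp.obj F.t) (n + 1) := by
    calc ((cmp D.sp F.t (n + 1)).hom ≫ f') ≫ (g' ≫ (cmp D.sp F.t (n + 1)).inv)
        = (cmp D.sp F.t (n + 1)).hom ≫ (f' ≫ g') ≫ (cmp D.sp F.t (n + 1)).inv := by
          simp only [Category.assoc]
      _ = ((cmp D.sp F.t (n + 1)).hom ≫ D.sp.map (alt F.t (n + 1))) ≫
          (cmp D.sp F.t (n + 1)).inv := by rw [e']; simp only [Category.assoc]
      _ = _ := by rw [← m2, Category.assoc, Iso.hom_inv_id, Category.comp_id]
  exact ⟨Z, _, _, alt_factor_retract (n + 1) F.inc F.pr F.inc_pr _ _ e3⟩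

theorem specialize_Q1 (F : K3Family D K K₀) (h : K.Q1) : K₀.Q1 :=
  (main.{v₀, u₀, w₀, 0, 0} M₀ K₀).2.2.1.2 (specialize F ((main.{v, u, w, 0, 0} M K).2.2.1.1 h))

end Pool.VAS
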