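import Pool.Agent.Work.MP_292d0f_sp.Main

/-!
# Voisin's anti-symmetrization conjecture specializes

Let `𝒮 ⟶ C` be a smooth projective family of K3 surfaces over a complex curve. If the conjecture Q1
holds for the geometric generic fibre `K` of the family, it holds for every fibre `K₀`. The theory
`M` of Chow motives is over an algebraic closure `Ω ≅ ℂ` of the function field of `C`, `M₀` is over
`ℂ`, and `D` is the specialization of cycles. (The geometric generic fibre is, as an abstract
scheme, a very general fibre. So Q1 for all K3 surfaces of a given degree is equivalent to Q1 for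
the very general ones.) The proof uses the strong form `Coniveau` of the conjecture.
-/

open CategoryTheory MonoidalCategory
open Pool.VAS

universe v u w v₀ u₀ w₀ v₁ u₁

theorem Pool.Agent.Work.MP_292d0f_sp.SpecializationResult.result
    {V : Type w} {A : Type u} [Category.{v} A] [MonoidalCategory A] [SymmetricCategory A]
    [Preadditive A] [MonoidalPreadditive A] [Linear ℚ A] [MonoidalLinear ℚ A]
    {M : ChowMotives V A}
    {V₀ : Type w₀} {A₀ : Type u₀} [Category.{v₀} A₀] [MonoidalCategory A₀]
    [SymmetricCategory A₀] [Preadditive A₀] [MonoidalPreadditive A₀] [Linear ℚ A₀]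
    [MonoidalLinear ℚ A₀] {M₀ : ChowMotives V₀ A₀}
    {B : Type u₁} [Category.{v₁} B] [MonoidalCategory B] [SymmetricCategory B]
    [Preadditive B] [MonoidalPreadditive B] [Linear ℚ B]
    (D : Specialization M M₀ B) (K : K3Motive M) (K₀ : K3Motive M₀) (F : K3Family D K K₀)
    (h : K.Q1) : K₀.Q1 :=
  specialize_Q1 F h
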